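import Pool.Agent.SU33.Main

/-!
# MP_7a6c33_nt in the Cramer-Granville random model of the primes

`coin z m` (file GM53/Defs) gives `true` the probability `prob z m`, which is `0` if `m < 2` or `m` has a prime
factor at most `z m`, and `min 1 (M (z m) / log m)` otherwise, `M y = ∏ (1 - 1/p)⁻¹` over the primes `p ≤ y`.
The random set is `{m | ω m = true}` for `ω` distributed by the product measure.
-/

set_option autoImplicit false

namespace Pool.Agent.Results.MP_7a6c33_nt.GranvilleModel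

open MeasureTheory Filter Pool.Agent.GM53

/-- The triple `(x, y, w)` is admissible for `n`, with the set `A` in the role of the primes. -/
def Admissible (A : Set ℕ) (n x y w : ℕ) : Prop :=
  1 ≤ y ∧ 1 ≤ w ∧ x + y + w = n ∧ 2 * y - 1 ∈ A ∧ 2 * w - 1 ∈ A ∧
    2 * x * y - 1 ∈ A ∧ 2 * x * w - 1 ∈ A ∧ 2 * y * w - 1 ∈ A

/-- In the random model with sieving limits `z m ≤ (log m) / 4` (for large `m`), almost surely for all
large `n` every `x` in `{3, 4, 6, 10, 15}` belongs to an admissible triple for `n`, except `x = 3` if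
`n ≡ 4` modulo `5`. -/
theorem result (z : ℕ → ℕ) (hz : ∀ᶠ m : ℕ in atTop, (z m : ℝ) ≤ Real.log m / 4) :
    ∀ᵐ ω ∂(Measure.infinitePi (coin z)), ∀ᶠ n : ℕ in atTop,
      ∀ x ∈ ({3, 4, 6, 10, 15} : Finset ℕ), (x = 3 → n % 5 ≠ 4) →
        ∃ y w : ℕ, Admissible {m | ω m = true} n x y w := by
  filter_upwards [Pool.Agent.SU33.main z hz] with ω hω
  filter_upwards [hω] with n hn x hx h3
  obtain ⟨y, w, hy, hw, h, hm⟩ := hn x hx h3
  refine ⟨y, w, hy, hw, h, ?_, ?_, ?_, ?_, ?_⟩ <;>
    exact hm _ (by simp [Pool.Agent.SU33.five])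

end Pool.Agent.Results.MP_7a6c33_nt.GranvilleModel
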